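import Mathlib
import Pool.Agent.helper72.CJG.Curve
import Pool.Agent.helper72.CJG.Twist
import Pool.Agent.helper72.CJG.Light
import Pool.Agent.helper72.CJG.Final

/-!
# Fine compactified universal Jacobians that are not locally projective
-/

namespace Pool.Agent.Results.MP_0a3d4f_ag.NotLocallyProjective

open Pool.Agent.helper72.CJ Pool.Agent.helper72.CJG

/-- For all `g ≥ 2`, `n ≥ 6` and all `χ` there is a fine universal stability condition `σ` of type
`(g, n)` and characteristic `χ` such that over every infinite field `k` there is a stable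
`n`-pointed curve `C` of genus `g` for which the moduli functor of `σ`-stable torsion-free sheaves
of rank one on `C` has no injective morphism to a projective space. -/
theorem result (g n : ℕ) (χ : ℤ) (hg : 2 ≤ g) (hn : 6 ≤ n) :
    ∃ σ : FineV g n χ, ∀ (k : Type) [Field k] [Infinite k],
      ∃ (V E : Type) (_ : DecidableEq V) (_ : Fintype V) (_ : Fintype E) (C : Curve k V E n),
        StableCurve g C ∧ ∀ m : ℕ, IsEmpty (InjMap σ C m) := by
  obtain ⟨l, rfl⟩ : ∃ l, g = l + 2 := ⟨g - 2, by omega⟩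
  obtain ⟨δ, rfl⟩ : ∃ δ : ℤ, χ = (6 - ((l + 2 : ℕ) : ℤ)) + δ :=
    ⟨χ - (6 - ((l + 2 : ℕ) : ℤ)), by ring⟩
  refine ⟨twS (sigmaG (l + 2) n hn) ⟨0, by omega⟩ δ, fun k _ _ => ?_⟩
  refine ⟨Fin 8, Nodes l, inferInstance, inferInstance, inferInstance, curveG l n k,
    stableCurve_curveG l n hn k, fun m => ⟨fun P => ?_⟩⟩
  exact no_projMapG hn (curveG l n k) rfl rfl rfl
    (projMap_tw (sigmaG (l + 2) n hn) (curveG l n k) ⟨0, by omega⟩ δ P.toProjMap)

end Pool.Agent.Results.MP_0a3d4f_ag.NotLocallyProjective
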